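import Pool.Agent.H93.GT.Targets

/-!
# Row GPI of gdi_modules: the flow through a pipe
-/

namespace Pool.Agent.H72.GT

open MeasureTheory AddCircle Finset Pool.Agent.H87.Synth Pool.Agent.H85.SC Pool.Agent.H93.GT
open Pool.Agent.H93.ET (sg jj iE iA T_KKL T_CUT T_BRK T_SER T_CRI)

theorem iAE (x : ℝ) : (iA x = 1 ∧ iE x = 0) ∨ (iA x = 0 ∧ iE x = 1) := by
  unfold iA iE
  split <;> simp

theorem gpi (h1 : T_GUQ) (h2 : T_GDJ) (h3 : T_LNS) (h4 : T_GSZ) (h5 : T_GSG) : T_GPI := by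
  classical
  intro d P S g hR n i hn hV hi
  obtain ⟨hR1, -⟩ := hR
  have hN : 0 < P.N n i := ((h4 d P).2.2.2.2.2 n i hV hi).2.1
  obtain ⟨-, -, -, hUT⟩ := h1 d P
  obtain ⟨-, hd1, hd2, hd3⟩ := h2 d P
  obtain ⟨-, -, -, -, -, -, -, hinj⟩ := h3
  have hblk0 : ∀ s : Bool,
      ∑ z ∈ P.AB n i 0 s, g z + ∑ z ∈ P.EM n i (sg s), g z = 0 := by
    intro s
    have h := hR1 (GC.blk n i 0 s)
    simp only [Pos.cls] at h
    rw [if_pos ⟨hn, hV, hi, hN⟩, if_pos trivial] at h
    rw [← Finset.sum_union (hd2 n i 0 s _ hV hi hN)]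
    convert h
  have hblk : ∀ (s : Bool) (m : ℕ), m + 1 < P.N n i →
      ∑ z ∈ P.AB n i (m + 1) s, g z + ∑ z ∈ P.EB n i m s, g z = 0 := by
    intro s m hm
    have h := hR1 (GC.blk n i (m + 1) s)
    simp only [Pos.cls] at h
    rw [if_pos ⟨hn, hV, hi, hm⟩, if_neg (Nat.succ_ne_zero m), Nat.add_sub_cancel] at h
    rw [← Finset.sum_union (hd1 n i (m + 1) m s s hV hi hm (by omega))]
    convert h
  have hsta : ∀ s : Bool,
      ∑ z ∈ P.FA n i (sg s), g z + ∑ z ∈ P.EB n i (P.N n i - 1) s, g z = 0 := by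
    intro s
    have h := hR1 (GC.sta n i s)
    simp only [Pos.cls] at h
    rw [if_pos ⟨hn, hV, hi⟩] at h
    rw [← Finset.sum_union (hd3 n i _ s _ hV hi (by omega))]
    convert h
  have hpar : ∀ t s, P.g n i t ≠ 0 → (∀ m, m < P.N n i → t ∉ P.T n i m) →
      g (pp n i t 0 s) + g (pp n i t 1 s) = 0 := by
    intro t s ht hm
    have h := hR1 (GC.par n i t s)
    simp only [Pos.cls] at h
    rw [if_pos ⟨hn, hV, hi, ht, hm⟩] at h
    rw [← Finset.sum_pair (f := g)]
    · convert h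
    · intro he
      have := (hinj n i t 0 s t 1 s (Or.inl rfl) (Or.inr rfl) he).2.1
      norm_num at this
  have hA01 : ∀ t : ℤ, iA (P.g n i t) = 0 ∨ iA (P.g n i t) = 1 := by
    intro t
    rcases iAE (P.g n i t) with h | h
    · exact Or.inr h.1
    · exact Or.inl h.1
  have hE01 : ∀ t : ℤ, iE (P.g n i t) = 0 ∨ iE (P.g n i t) = 1 := by
    intro t
    rcases iAE (P.g n i t) with h | h
    · exact Or.inl h.2
    · exact Or.inr h.2
  have hAB : ∀ m s, ∑ z ∈ P.AB n i m s, g z =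
      ∑ t ∈ P.T n i m, g (pp n i t (iA (P.g n i t)) s) := by
    intro m s
    unfold Pos.AB
    rw [Finset.sum_image]
    intro t _ t' _ h
    exact (hinj n i t _ s t' _ s (hA01 t) (hA01 t') h).1
  have hEB : ∀ m s, ∑ z ∈ P.EB n i m s, g z =
      ∑ t ∈ P.T n i m, g (pp n i t (iE (P.g n i t)) s) := by
    intro m s
    unfold Pos.EB
    rw [Finset.sum_image]
    intro t _ t' _ h
    exact (hinj n i t _ s t' _ s (hE01 t) (hE01 t') h).1
  have hABE : ∀ m s, ∑ z ∈ P.AB n i m s, g z + ∑ z ∈ P.EB n i m s, g z =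
      ∑ t ∈ P.T n i m, (g (pp n i t 0 s) + g (pp n i t 1 s)) := by
    intro m s
    rw [hAB, hEB, ← Finset.sum_add_distrib]
    refine Finset.sum_congr rfl fun t _ => ?_
    rcases iAE (P.g n i t) with h | h
    · rw [h.1, h.2, add_comm]
    · rw [h.1, h.2]
  have htel : ∀ s : Bool, ∑ m ∈ range (P.N n i),
      (∑ z ∈ P.AB n i m s, g z + ∑ z ∈ P.EB n i m s, g z) =
      - (∑ z ∈ P.EM n i (sg s), g z) - ∑ z ∈ P.FA n i (sg s), g z := by
    intro s
    obtain ⟨K, hK⟩ : ∃ K, P.N n i = K + 1 := ⟨P.N n i - 1, by omega⟩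
    have h0 := hblk0 s
    have h9 := hsta s
    rw [hK] at h9 ⊢
    rw [Nat.add_sub_cancel] at h9
    rw [Finset.sum_add_distrib, Finset.sum_range_succ' (fun m => ∑ z ∈ P.AB n i m s, g z),
      Finset.sum_range_succ (fun m => ∑ z ∈ P.EB n i m s, g z)]
    have hs : ∑ m ∈ range K, ∑ z ∈ P.AB n i (m + 1) s, g z +
        ∑ m ∈ range K, ∑ z ∈ P.EB n i m s, g z = 0 := by
      rw [← Finset.sum_add_distrib]
      refine Finset.sum_eq_zero fun m hm => hblk s m ?_
      have := Finset.mem_range.1 hm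
      omega
    linear_combination hs + h0 + h9
  have hP : P.gP g n i = ∑ s : Bool, ∑ m ∈ range (P.N n i),
      (∑ z ∈ P.AB n i m s, g z + ∑ z ∈ P.EB n i m s, g z) := by
    have e1 : P.gP g n i = ∑ t ∈ (Ioo (-(2 * (P.b n i (P.N n i) : ℤ)))
        (2 * (P.b n i (P.N n i) : ℤ))).filter (fun t => P.g n i t ≠ 0),
        ∑ s : Bool, (g (pp n i t 0 s) + g (pp n i t 1 s)) := by
      unfold Pos.gP Pos.IX
      rw [Finset.sum_product]
      refine Finset.sum_congr (by ext t; simp only [Finset.mem_filter]) fun t _ => ?_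
      rw [Finset.sum_product, Finset.sum_pair (by norm_num), ← Finset.sum_add_distrib]
    rw [e1]
    have hsub : (range (P.N n i)).biUnion (fun m => P.T n i m) ⊆
        (Ioo (-(2 * (P.b n i (P.N n i) : ℤ)))
        (2 * (P.b n i (P.N n i) : ℤ))).filter (fun t => P.g n i t ≠ 0) := by
      intro t ht
      rw [Finset.mem_biUnion] at ht
      obtain ⟨m, hm, htm⟩ := ht
      have hg := (P.hT n i m hV hi (Finset.mem_range.1 hm)).2.1 t htm
      have hb := (P.gsupp n i t hV hi hg).2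
      rw [Finset.mem_filter, Finset.mem_Ioo]
      rw [abs_lt] at hb
      exact ⟨hb, hg⟩
    rw [← Finset.sum_subset hsub]
    · rw [Finset.sum_biUnion]
      · rw [Finset.sum_comm]
        refine Finset.sum_congr rfl fun m _ => ?_
        rw [Finset.sum_comm]
        exact Finset.sum_congr rfl fun s _ => (hABE m s).symm
      · intro m hm m' hm' hne
        rw [Function.onFun, Finset.disjoint_left]
        intro t ht ht'
        exact hne (hUT n i m m' t hV hi (Finset.mem_range.1 (Finset.mem_coe.1 hm))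
          (Finset.mem_range.1 (Finset.mem_coe.1 hm')) ht ht')
    · intro t ht ht'
      refine Finset.sum_eq_zero fun s _ => hpar t s (Finset.mem_filter.1 ht).2 ?_
      intro m hm htm
      exact ht' (Finset.mem_biUnion.2 ⟨m, Finset.mem_range.2 hm, htm⟩)
  rw [hP, Fintype.sum_bool, htel true, htel false]
  unfold Pos.gA Pos.gE
  simp only [sg, if_true]
  simp only [Bool.false_eq_true, if_false]
  ring

end Pool.Agent.H72.GT
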